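import Pool.Agent.H269.SV.Stm

set_option autoImplicit false

open MeasureTheory Filter Topology Set
open scoped ContDiff
open Pool.Agent.H269.SV

namespace Pool.Agent.H100.SV

/-- the weight -/
noncomputable def w (a b t : ℝ) : ℝ := a + (t - a) * Real.smoothTransition ((t - a) / (b - a))

theorem w_smooth (a b : ℝ) : ContDiff ℝ ∞ (w a b) := by
  unfold w
  have h : ContDiff ℝ ∞ (fun t : ℝ => (t - a) / (b - a)) := (contDiff_id.sub contDiff_const).div_const _
  exact contDiff_const.add ((contDiff_id.sub contDiff_const).mul
    (Real.smoothTransition.contDiff.comp h))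

theorem w_left {a b t : ℝ} (hab : a < b) (ht : t ≤ a) : w a b t = a := by
  unfold w
  rw [Real.smoothTransition.zero_of_nonpos, mul_zero, add_zero]
  exact div_nonpos_of_nonpos_of_nonneg (by linarith) (by linarith)

theorem w_right {a b t : ℝ} (hab : a < b) (ht : b ≤ t) : w a b t = t := by
  unfold w
  rw [Real.smoothTransition.one_of_one_le]
  · ring
  · rw [le_div_iff₀ (by linarith)]
    linarith

theorem w_mono {a b : ℝ} (hab : a < b) : Monotone (w a b) := by
  intro s t hst
  rcases le_total s a with hs | hs
  · rw [w_left hab hs]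
    rcases le_total t a with ht | ht
    · rw [w_left hab ht]
    · unfold w
      have := mul_nonneg (sub_nonneg.2 ht) (Real.smoothTransition.nonneg ((t - a) / (b - a)))
      linarith
  · unfold w
    have h1 : Real.smoothTransition ((s - a) / (b - a)) ≤
        Real.smoothTransition ((t - a) / (b - a)) := by
      apply Real.smoothTransition.monotone
      exact div_le_div_of_nonneg_right (by linarith) (by linarith)
    have h2 := mul_le_mul (sub_le_sub_right hst a) h1 (Real.smoothTransition.nonneg _)
      (by linarith : (0 : ℝ) ≤ t - a)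
    linarith

theorem w_ge {a b : ℝ} (hab : a < b) (t : ℝ) : a ≤ w a b t := by
  rcases le_total t a with ht | ht
  · rw [w_left hab ht]
  · have := w_mono hab ht
    rwa [w_left hab le_rfl] at this

/-- the function -/
noncomputable def Th (a b t : ℝ) : ℝ := b + ∫ τ in b..t, w a b τ / τ

theorem w_div_meas (a b : ℝ) : Measurable (fun τ : ℝ => w a b τ / τ) :=
  (w_smooth a b).continuous.measurable.div measurable_id

theorem w_div_cont (a b : ℝ) {t : ℝ} (ht : 0 < t) : ContinuousAt (fun τ : ℝ => w a b τ / τ) t :=
  (w_smooth a b).continuous.continuousAt.div continuousAt_id ht.ne'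

theorem w_div_int (a b : ℝ) {s t : ℝ} (hs : 0 < s) (ht : 0 < t) :
    IntervalIntegrable (fun τ : ℝ => w a b τ / τ) volume s t := by
  apply ContinuousOn.intervalIntegrable
  intro x hx
  have : 0 < x := by
    rw [uIcc, mem_Icc] at hx
    exact (lt_min hs ht).trans_le hx.1
  exact (w_div_cont a b this).continuousWithinAt

theorem Th_deriv {a b t : ℝ} (hb : 0 < b) (ht : 0 < t) :
    HasDerivAt (Th a b) (w a b t / t) t := by
  have h := intervalIntegral.integral_hasDerivAt_right (w_div_int a b hb ht)
    (w_div_meas a b).stronglyMeasurable.stronglyMeasurableAtFilter (w_div_cont a b ht)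
  exact h.const_add b

theorem Th_deriv_eq {a b t : ℝ} (hb : 0 < b) (ht : 0 < t) : deriv (Th a b) t = w a b t / t :=
  (Th_deriv hb ht).deriv

theorem THETA : S_THETA := by
  intro a b ha hab
  have hb : 0 < b := ha.trans hab
  refine ⟨Th a b, Th a b a - a * Real.log a, ?_, ?_, ?_, ?_⟩
  · rw [contDiffOn_infty_iff_deriv_of_isOpen isOpen_Ioi]
    refine ⟨fun t ht => (Th_deriv hb ht).differentiableAt.differentiableWithinAt, ?_⟩
    have h : ContDiffOn ℝ ∞ (fun t : ℝ => w a b t / t) (Ioi 0) :=
      (w_smooth a b).contDiffOn.div contDiffOn_id fun t ht => (mem_Ioi.1 ht).ne'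
    exact h.congr fun t ht => Th_deriv_eq hb ht
  · intro t ht
    unfold Th
    have h : ∫ τ in b..t, w a b τ / τ = ∫ τ in b..t, (1 : ℝ) := by
      apply intervalIntegral.integral_congr
      intro x hx
      rw [uIcc_of_le ht, mem_Icc] at hx
      simp only
      rw [w_right hab hx.1]
      exact div_self (hb.trans_le hx.1).ne'
    rw [h]
    simp
  · intro t ht hta
    have h1 : Th a b t = Th a b a + ∫ τ in a..t, w a b τ / τ := by
      unfold Th
      rw [add_assoc, intervalIntegral.integral_add_adjacent_intervals (w_div_int a b hb ha)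
        (w_div_int a b ha ht)]
    have h2 : ∫ τ in a..t, w a b τ / τ = ∫ τ in a..t, a * τ⁻¹ := by
      apply intervalIntegral.integral_congr
      intro x hx
      rw [uIcc_of_ge hta, mem_Icc] at hx
      simp only
      rw [w_left hab hx.2]
      rfl
    rw [h1, h2, intervalIntegral.integral_const_mul, integral_inv_of_pos ha ht,
      Real.log_div ht.ne' ha.ne']
    ring
  · intro t ht
    refine ⟨?_, ?_⟩
    · rw [Th_deriv_eq hb ht]
      exact div_pos (ha.trans_le (w_ge hab t)) ht
    · have h1 : deriv (Th a b) =ᶠ[𝓝 t] fun s => w a b s / s := by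
        filter_upwards [Ioi_mem_nhds ht] with s hs
        exact Th_deriv_eq hb hs
      have h2 : HasDerivAt (w a b) (deriv (w a b) t) t :=
        ((w_smooth a b).differentiable (by simp)).differentiableAt.hasDerivAt
      have h3 : HasDerivAt (fun s => w a b s / s) ((deriv (w a b) t * t - w a b t * 1) / t ^ 2) t :=
        h2.div (hasDerivAt_id t) ht.ne'
      rw [h1.deriv_eq, h3.deriv, Th_deriv_eq hb ht]
      have h4 : w a b t / t + t * ((deriv (w a b) t * t - w a b t * 1) / t ^ 2) =
          deriv (w a b) t := by
        field_simp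
        ring
      rw [h4]
      exact (w_mono hab).deriv_nonneg
end Pool.Agent.H100.SV
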